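import Pool.Agent.N352.PJ.Cnt
import Pool.Agent.N916.PP.FamC

/-!
# Project PJ, part FAM: the discriminant modulo primes (helper34)
-/

set_option autoImplicit false
set_option linter.all false

open Polynomial
open scoped Classical

namespace Pool.Agent.N34.PJ

open Pool.Agent.N352.PJ
open Pool.Agent.N874.PP (nm)

section pol

variable {g : ℕ} {R : Type} [CommRing R]

theorem pol_coeff (a : Fin (2 * g) → R) (j : ℕ) : (pol a).coeff j =
    (if j = 2 * g + 1 then 1 else 0) + (if h : j < 2 * g then a ⟨j, h⟩ else 0) := by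
  unfold pol
  rw [coeff_add, coeff_X_pow, finset_sum_coeff]
  congr 1
  simp only [coeff_C_mul, coeff_X_pow, mul_ite, mul_one, mul_zero]
  split_ifs with h
  · rw [Finset.sum_eq_single ⟨j, h⟩]
    · simp
    · intro i _ hi
      rw [if_neg]
      intro h2
      apply hi
      exact Fin.ext h2.symm
    · intro h2
      exact absurd (Finset.mem_univ _) h2
  · apply Finset.sum_eq_zero
    intro i _
    rw [if_neg]
    have := i.2
    omega

theorem pol_coeff_lt (a : Fin (2 * g) → R) (j : Fin (2 * g)) : (pol a).coeff j = a j := by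
  have := j.2
  rw [pol_coeff, if_neg (by omega), dif_pos this, zero_add]

theorem pol_coeff_top (a : Fin (2 * g) → R) : (pol a).coeff (2 * g + 1) = 1 := by
  rw [pol_coeff, if_pos rfl, dif_neg (by omega), add_zero]

theorem pol_coeff_tr (a : Fin (2 * g) → R) : (pol a).coeff (2 * g) = 0 := by
  rw [pol_coeff, if_neg (by omega), dif_neg (by omega), add_zero]

theorem pol_natDegree_le (a : Fin (2 * g) → R) : (pol a).natDegree ≤ 2 * g + 1 := by
  rw [natDegree_le_iff_coeff_eq_zero]
  intro j hj
  rw [pol_coeff, if_neg (by omega), dif_neg (by omega), add_zero]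

theorem pol_monic (a : Fin (2 * g) → R) : (pol a).Monic :=
  monic_of_natDegree_le_of_coeff_eq_one _ (pol_natDegree_le a) (pol_coeff_top a)

theorem pol_natDegree [Nontrivial R] (a : Fin (2 * g) → R) : (pol a).natDegree = 2 * g + 1 :=
  natDegree_eq_of_le_of_coeff_ne_zero (pol_natDegree_le a) (by rw [pol_coeff_top]; exact one_ne_zero)

theorem pol_inj {a b : Fin (2 * g) → R} (h : pol a = pol b) : a = b := by
  funext j
  rw [← pol_coeff_lt a j, h, pol_coeff_lt]

/-- a polynomial with the coefficients of `pol` -/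
theorem eq_pol {f : R[X]} (h1 : f.natDegree ≤ 2 * g + 1) (h2 : f.coeff (2 * g + 1) = 1)
    (h3 : f.coeff (2 * g) = 0) : f = pol (fun j : Fin (2 * g) => f.coeff j) := by
  ext j
  rw [pol_coeff]
  by_cases hj : j < 2 * g
  · rw [if_neg (by omega), dif_pos hj, zero_add]
  · rw [dif_neg hj, add_zero]
    by_cases hj2 : j = 2 * g + 1
    · rw [if_pos hj2, hj2, h2]
    · rw [if_neg hj2]
      by_cases hj3 : j = 2 * g
      · rw [hj3, h3]
      · exact coeff_eq_zero_of_natDegree_lt (by omega)

variable {S : Type} [CommRing S]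

theorem pol_map (φ : R →+* S) (a : Fin (2 * g) → R) :
    (pol a).map φ = pol (fun j => φ (a j)) := by
  ext j
  rw [coeff_map, pol_coeff, pol_coeff, map_add]
  congr 1
  · split_ifs <;> simp
  · split_ifs <;> simp

theorem dis_map (φ : R →+* S) (a : Fin (2 * g) → R) :
    dis (fun j => φ (a j)) = φ (dis a) := by
  unfold dis
  rw [← pol_map, ← resultant_map_map, derivative_map]

end pol

theorem dis_ne_zero {g : ℕ} {F : Type} [Field F] (h0 : ((2 * g + 1 : ℕ) : F) ≠ 0)
    (a : Fin (2 * g) → F) (hs : (pol a).Separable) : dis a ≠ 0 := by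
  have h1 : (derivative (pol a)).natDegree = 2 * g := by
    refine natDegree_eq_of_le_of_coeff_ne_zero ?_ ?_
    · have := natDegree_derivative_le (pol a)
      rw [pol_natDegree] at this
      simpa using this
    · rw [coeff_derivative, pol_coeff_top, one_mul]
      exact_mod_cast h0
  have h2 := resultant_ne_zero (pol a) (derivative (pol a)) hs
  rw [pol_natDegree, h1] at h2
  exact h2

section quo

variable {k : Type} [Field k] {g : ℕ}

/-- congruent coefficients give congruent discriminants -/
theorem dis_congr {M : k[X]} {a b : Fin (2 * g) → k[X]} (h : ∀ j, M ∣ a j - b j) :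
    M ∣ dis a - dis b := by
  have key : ∀ x : k[X], Ideal.Quotient.mk (Ideal.span {M}) x = 0 ↔ M ∣ x := fun x => by
    rw [Ideal.Quotient.eq_zero_iff_mem, Ideal.mem_span_singleton]
  rw [← key, map_sub, ← dis_map, ← dis_map]
  have : (fun j => Ideal.Quotient.mk (Ideal.span {M}) (a j)) =
      fun j => Ideal.Quotient.mk (Ideal.span {M}) (b j) := by
    funext j
    rw [← sub_eq_zero, ← map_sub, key]
    exact h j
  rw [this, sub_self]

/-- reduction to a separable polynomial -/
theorem not_dvd_of_sep (h0 : ((2 * g + 1 : ℕ) : k) ≠ 0) {P : k[X]} (hP : Irreducible P)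
    (a : Fin (2 * g) → k[X])
    (hs : ((pol a).map (Ideal.Quotient.mk (Ideal.span {P}))).Separable) : ¬ P ∣ dis a := by
  haveI : (Ideal.span {P}).IsMaximal := PrincipalIdealRing.isMaximal_of_irreducible hP
  letI := Ideal.Quotient.field (Ideal.span {P})
  intro h
  have key : Ideal.Quotient.mk (Ideal.span {P}) (dis a) = 0 := by
    rw [Ideal.Quotient.eq_zero_iff_mem, Ideal.mem_span_singleton]
    exact h
  rw [← dis_map] at key
  rw [pol_map] at hs
  refine dis_ne_zero ?_ _ hs key
  intro h2
  apply h0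
  have h3 : (algebraMap k (k[X] ⧸ Ideal.span {P})) ((2 * g + 1 : ℕ) : k) = 0 := by
    rw [map_natCast]
    exact h2
  exact (map_eq_zero_iff _ (algebraMap k (k[X] ⧸ Ideal.span {P})).injective).1 h3

variable [Finite k]

/-- at the small primes -/
theorem not_dvd_r (h0 : ((2 * g + 1 : ℕ) : k) ≠ 0) {r : k[X]} (hr : GoodR g r) {P : k[X]}
    (hP : Irreducible P) (a : Fin (2 * g) → k[X]) (ha : ∀ j, P ∣ a j - C (r.coeff j)) :
    ¬ P ∣ dis a := by
  haveI : (Ideal.span {P}).IsMaximal := PrincipalIdealRing.isMaximal_of_irreducible hP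
  letI := Ideal.Quotient.field (Ideal.span {P})
  obtain ⟨h1, h2, h3, h4⟩ := hr
  apply not_dvd_of_sep h0 hP
  have e : (pol a).map (Ideal.Quotient.mk (Ideal.span {P})) =
      r.map ((Ideal.Quotient.mk (Ideal.span {P})).comp C) := by
    have e1 : r = pol (fun j : Fin (2 * g) => r.coeff j) :=
      eq_pol h3.le (by rw [← h3]; exact h1.coeff_natDegree) h4
    conv_rhs => rw [e1]
    rw [pol_map, pol_map]
    congr 1
    funext j
    rw [RingHom.comp_apply, ← sub_eq_zero, ← map_sub, Ideal.Quotient.eq_zero_iff_mem,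
      Ideal.mem_span_singleton]
    exact ha j
  rw [e]
  exact (PerfectField.separable_of_irreducible h2).map

/-- at the primes of `S` -/
theorem not_dvd_S (hg : 1 ≤ g) (h0 : ((2 * g + 1 : ℕ) : k) ≠ 0) {Q : k[X]} {h : k[X][X]}
    (hQ : Irreducible Q) (h1 : h.Monic) (h2 : h.natDegree = 2 * g) (h3 : h.coeff (2 * g - 1) = 0)
    (h4 : Irreducible (h.map (Ideal.Quotient.mk (Ideal.span {Q}))))
    (a : Fin (2 * g) → k[X]) (ha : ∀ j : Fin (2 * g), Q ∣ a j - (X * h).coeff j) :
    Cg Q (pol a) (X * h) ∧ ¬ Q ∣ dis a := by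
  have hc : Cg Q (pol a) (X * h) := by
    intro j
    rw [pol_coeff]
    by_cases hj : j < 2 * g
    · rw [if_neg (by omega), dif_pos hj, zero_add]
      exact ha ⟨j, hj⟩
    · rw [dif_neg hj, add_zero]
      obtain ⟨i, rfl⟩ : ∃ i, j = i + 1 := ⟨j - 1, by omega⟩
      rw [coeff_X_mul]
      by_cases hj2 : i = 2 * g
      · rw [if_pos (by omega), hj2, ← h2, h1.coeff_natDegree, sub_self]
        exact dvd_zero _
      · rw [if_neg (by omega)]
        by_cases hj3 : i + 1 = 2 * g
        · rw [show i = 2 * g - 1 by omega, h3, sub_self]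
          exact dvd_zero _
        · rw [coeff_eq_zero_of_natDegree_lt (by omega), sub_self]
          exact dvd_zero _
  refine ⟨hc, ?_⟩
  haveI : (Ideal.span {Q}).IsMaximal := PrincipalIdealRing.isMaximal_of_irreducible hQ
  letI := Ideal.Quotient.field (Ideal.span {Q})
  haveI hfin : Finite (k[X] ⧸ Ideal.span {Q}) := by
    haveI : Module.Finite k (AdjoinRoot Q) := (AdjoinRoot.powerBasis hQ.ne_zero).finite
    exact Module.finite_of_finite (R := k) (M := AdjoinRoot Q)
  apply not_dvd_of_sep h0 hQ
  have e : (pol a).map (Ideal.Quotient.mk (Ideal.span {Q})) =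
      X * h.map (Ideal.Quotient.mk (Ideal.span {Q})) := by
    have : X * h.map (Ideal.Quotient.mk (Ideal.span {Q})) =
        (X * h).map (Ideal.Quotient.mk (Ideal.span {Q})) := by
      rw [Polynomial.map_mul, map_X]
    rw [this]
    ext j
    rw [coeff_map, coeff_map, ← sub_eq_zero, ← map_sub, Ideal.Quotient.eq_zero_iff_mem,
      Ideal.mem_span_singleton]
    exact hc j
  rw [e]
  refine separable_X.mul (PerfectField.separable_of_irreducible h4) ?_
  rw [irreducible_X.coprime_iff_not_dvd]
  intro hd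
  have h5 := natDegree_eq_of_degree_eq (degree_eq_degree_of_associated (irreducible_X.associated_of_dvd h4 hd))
  rw [natDegree_X, h1.natDegree_map, h2] at h5
  omega

end quo

end Pool.Agent.N34.PJ
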