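import Pool.Agent.N34.PJ.Fam1

/-!
# Project PJ, part FAM: the theorem (helper34)
-/

set_option autoImplicit false
set_option linter.all false

open Polynomial
open scoped Classical

namespace Pool.Agent.N34.PJ

open Pool.Agent.N352.PJ
open Pool.Agent.N874.PP (nm)
open Pool.Agent.N916.PP (exists_Pr five_le bU exists_a1 crt2 sum1 lt_ncard)

section count

variable {k : Type} [Field k] [Finite k] {g : ℕ}

theorem six_ne (hg : 1 ≤ g) (h : ((2 * g + 1).factorial : k) ≠ 0) : (6 : k) ≠ 0 := by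
  intro h6
  apply h
  have h1 : Nat.factorial 3 ∣ (2 * g + 1).factorial := Nat.factorial_dvd_factorial (by omega)
  obtain ⟨m, hm⟩ := h1
  rw [hm]
  have : Nat.factorial 3 = 6 := rfl
  rw [this]
  push_cast
  rw [h6, zero_mul]

theorem top_ne (h : ((2 * g + 1).factorial : k) ≠ 0) : ((2 * g + 1 : ℕ) : k) ≠ 0 := by
  intro h6
  apply h
  rw [Nat.factorial_succ]
  push_cast at h6 ⊢
  rw [h6, zero_mul]

theorem nm_pos (Q : k[X]) : 0 < nm Q := Nat.pow_pos Nat.card_pos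

theorem nm_mul {P Q : k[X]} (hP : P ≠ 0) (hQ : Q ≠ 0) : nm (P * Q) = nm P * nm Q := by
  unfold nm
  rw [natDegree_mul hP hQ, pow_add]

theorem nm_prod (S : Finset k[X]) (hS : ∀ Q ∈ S, Q.Monic) : nm (∏ Q ∈ S, Q) = ∏ Q ∈ S, nm Q := by
  unfold nm
  rw [natDegree_prod_of_monic S (fun Q => Q) hS, Finset.prod_pow_eq_pow_sum]

/-- the residues modulo `P ^ 2` -/
def TP (g : ℕ) (P : k[X]) : Set (Fin (2 * g) → k[X]) :=
  {a | (∀ j, (a j).degree < 2 * P.natDegree) ∧ P ^ 2 ∣ dis a}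

theorem TP_fin (P : k[X]) : (TP g P).Finite := by
  have h : ({a : Fin (2 * g) → k[X] | ∀ j, a j ∈ {f : k[X] | f.degree < ((2 * P.natDegree : ℕ) : WithBot ℕ)}}).Finite :=
    Set.Finite.pi' fun j => (lt_ncard (k := k) (2 * P.natDegree)).2
  refine h.subset ?_
  intro a ha j
  have := ha.1 j
  show (a j).degree < ((2 * P.natDegree : ℕ) : WithBot ℕ)
  push_cast
  exact this

variable (N : ℕ) (r W : k[X]) (A : Fin (2 * g) → k[X])

/-- the proportion of discriminants divisible by `P ^ 2` in `Bx` -/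
theorem count_P (h1 : S_LD) (h2 : S_BX) (hg : 1 ≤ g) (hk : ((2 * g + 1).factorial : k) ≠ 0)
    (hW : W ≠ 0) {P : k[X]} (hPm : P.Monic) (hP : Irreducible P) (hPW : ¬ P ∣ W)
    (hd : W.natDegree + 2 * P.natDegree ≤ 4 * N) :
    (({a | a ∈ Bx g N r W A ∧ P ^ 2 ∣ dis a}).ncard : ℝ) ≤
      (2 * g + 2 * g * (2 * g - 1) * (2 * g + 1) : ℕ) * ((Bx g N r W A).ncard : ℝ) /
        (Nat.card k : ℝ) ^ (2 * P.natDegree) := by
  obtain ⟨Cc, hCc⟩ : ∃ Cc : ℕ, Cc = 2 * g + 2 * g * (2 * g - 1) * (2 * g + 1) := ⟨_, rfl⟩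
  rw [← hCc]
  have hcop : IsCoprime W (P ^ 2) := by
    refine IsCoprime.pow_right ?_
    exact (hP.coprime_iff_not_dvd.2 hPW).symm
  have hP2m : (P ^ 2).Monic := hPm.pow 2
  have hP20 : P ^ 2 ≠ 0 := hP2m.ne_zero
  have hex : ∀ ρ : Fin (2 * g) → k[X], ∃ B : Fin (2 * g) → k[X],
      ∀ j, W ∣ B j - A j ∧ P ^ 2 ∣ B j - ρ j := by
    intro ρ
    choose B hB using fun j => crt2 hcop (A j) (ρ j)
    exact ⟨B, hB⟩
  choose B hB using hex
  have hcov : {a | a ∈ Bx g N r W A ∧ P ^ 2 ∣ dis a} ⊆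
      ⋃ ρ ∈ (TP_fin (g := g) P).toFinset, Bx g N r (W * P ^ 2) (B ρ) := by
    rintro a ⟨ha, hda⟩
    simp only [Set.mem_iUnion, Set.Finite.mem_toFinset]
    have hρ : ∀ j, P ^ 2 ∣ a j - a j %ₘ P ^ 2 := fun j =>
      ⟨a j /ₘ P ^ 2, by linear_combination (-1 : k[X]) * modByMonic_add_div (a j) (P ^ 2)⟩
    refine ⟨fun j => a j %ₘ P ^ 2, ⟨fun j => ?_, ?_⟩, fun j => ⟨(ha j).1, (ha j).2.1, ?_⟩⟩
    · have h3 := degree_modByMonic_lt (a j) hP2m
      rw [degree_eq_natDegree hP20, natDegree_pow] at h3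
      push_cast at h3
      exact h3
    · have h3 := dis_congr (M := P ^ 2) (a := a) (b := fun j => a j %ₘ P ^ 2) hρ
      have h4 := dvd_sub hda h3
      rwa [sub_sub_cancel] at h4
    · refine hcop.mul_dvd ?_ ?_
      · have h3 := dvd_sub (ha j).2.2 (hB (fun j => a j %ₘ P ^ 2) j).1
        convert h3 using 1
        ring
      · have h3 := dvd_sub (hρ j) (hB (fun j => a j %ₘ P ^ 2) j).2
        convert h3 using 1
        ring
  have hWP : W * P ^ 2 ≠ 0 := mul_ne_zero hW hP20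
  have hWd : (W * P ^ 2).natDegree ≤ 4 * N := by
    rw [natDegree_mul hW hP20, natDegree_pow]
    omega
  have hnmP : nm (P ^ 2) = nm P ^ 2 := by
    rw [pow_two, nm_mul hP.ne_zero hP.ne_zero, pow_two]
  have hnmWP : nm (W * P ^ 2) = nm W * nm P ^ 2 := by
    rw [nm_mul hW hP20, hnmP]
  have hfin : (⋃ ρ ∈ (TP_fin (g := g) P).toFinset, Bx g N r (W * P ^ 2) (B ρ)).Finite :=
    Set.Finite.biUnion (Finset.finite_toSet _) fun ρ _ => (h2 g k N r _ (B ρ) hWP hWd).1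
  have hle := Set.ncard_le_ncard hcov hfin
  have hle2 := hle.trans (Finset.set_ncard_biUnion_le _ _)
  -- the size of the classes
  have hsz : ∀ ρ, (Bx g N r (W * P ^ 2) (B ρ)).ncard * nm P ^ (4 * g) = (Bx g N r W A).ncard := by
    intro ρ
    have e1 := (h2 g k N r _ (B ρ) hWP hWd).2
    have e2 := (h2 g k N r W A hW (by omega)).2
    rw [← e2, hnmWP] at e1
    have hp : 0 < nm W ^ (2 * g) := Nat.pow_pos (nm_pos W)
    apply Nat.eq_of_mul_eq_mul_right hp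
    rw [← e1]
    rw [mul_pow, ← pow_mul, show 2 * (2 * g) = 4 * g by ring]
    ring
  have hcard : (TP_fin (g := g) P).toFinset.card = (TP g P).ncard :=
    (Set.ncard_eq_toFinset_card _ _).symm
  have hLD : (TP g P).ncard * nm P ^ 2 ≤ Cc * nm P ^ (4 * g) := by
    rw [hCc]
    exact h1 g k hg hk P hP
  have hsum : (∑ ρ ∈ (TP_fin (g := g) P).toFinset, (Bx g N r (W * P ^ 2) (B ρ)).ncard) *
      nm P ^ (4 * g) = (TP g P).ncard * (Bx g N r W A).ncard := by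
    rw [Finset.sum_mul, Finset.sum_congr rfl fun ρ _ => hsz ρ, Finset.sum_const, smul_eq_mul, hcard]
  have hfinal : ({a | a ∈ Bx g N r W A ∧ P ^ 2 ∣ dis a}).ncard * nm P ^ 2 ≤
      Cc * (Bx g N r W A).ncard := by
    have hp : 0 < nm P ^ (4 * g) := Nat.pow_pos (nm_pos P)
    apply Nat.le_of_mul_le_mul_right _ hp
    calc ({a | a ∈ Bx g N r W A ∧ P ^ 2 ∣ dis a}).ncard * nm P ^ 2 * nm P ^ (4 * g)
        ≤ (∑ ρ ∈ (TP_fin (g := g) P).toFinset, (Bx g N r (W * P ^ 2) (B ρ)).ncard) * nm P ^ 2 *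
            nm P ^ (4 * g) := by
          gcongr
      _ = ((∑ ρ ∈ (TP_fin (g := g) P).toFinset, (Bx g N r (W * P ^ 2) (B ρ)).ncard) *
            nm P ^ (4 * g)) * nm P ^ 2 := by ring
      _ = ((TP g P).ncard * nm P ^ 2) * (Bx g N r W A).ncard := by rw [hsum]; ring
      _ ≤ (Cc * nm P ^ (4 * g)) * (Bx g N r W A).ncard := Nat.mul_le_mul_right _ hLD
      _ = Cc * (Bx g N r W A).ncard * nm P ^ (4 * g) := by ring
  have hq : (0 : ℝ) < (Nat.card k : ℝ) := by exact_mod_cast Nat.card_pos (α := k)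
  rw [le_div_iff₀ (by positivity)]
  have : ((nm P ^ 2 : ℕ) : ℝ) = (Nat.card k : ℝ) ^ (2 * P.natDegree) := by
    unfold nm
    push_cast
    rw [← pow_mul, mul_comm]
  rw [← this]
  exact_mod_cast hfinal

/-- the sum over the primes of middle degree -/
theorem mid_part (h1 : S_LD) (h2 : S_BX) (hg : 1 ≤ g) (hk : ((2 * g + 1).factorial : k) ≠ 0)
    (hW : W ≠ 0) (hWN : W.natDegree ≤ 2 * N)
    (Pr : ℕ → Finset k[X]) (hP1 : ∀ d Q, Q ∈ Pr d ↔ Q.Monic ∧ Irreducible Q ∧ Q.natDegree = d)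
    (hP2 : ∀ d : ℕ, 1 ≤ d → (d : ℝ) * (Pr d).card ≤ (Nat.card k : ℝ) ^ d)
    (b : ℕ) (hb : (2 * g + 2 * g * (2 * g - 1) * (2 * g + 1) : ℕ) ≤ Nat.card k ^ b) :
    (((⋃ d ∈ Finset.Ico (b + 1) (N + 1), ⋃ Q ∈ (Pr d).filter (fun Q => ¬ Q ∣ W),
      {a | a ∈ Bx g N r W A ∧ Q ^ 2 ∣ dis a})).ncard : ℝ) ≤
      1 / 4 * ((Bx g N r W A).ncard : ℝ) := by
  have hq5 : (5 : ℝ) ≤ (Nat.card k : ℝ) := by exact_mod_cast five_le (six_ne hg hk)
  obtain ⟨Cc, hCc⟩ : ∃ Cc : ℕ, Cc = 2 * g + 2 * g * (2 * g - 1) * (2 * g + 1) := ⟨_, rfl⟩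
  have hb' : (Cc : ℝ) ≤ (Nat.card k : ℝ) ^ b := by
    rw [← hCc] at hb
    exact_mod_cast hb
  set q : ℝ := (Nat.card k : ℝ) with hqdef
  have hq0 : 0 < q := by linarith
  set Y : ℝ := ((Bx g N r W A).ncard : ℝ) with hY
  have hY0 : 0 ≤ Y := Nat.cast_nonneg _
  have hC0 : (0 : ℝ) ≤ Cc := Nat.cast_nonneg _
  have h3 : ∀ d ∈ Finset.Ico (b + 1) (N + 1), (((⋃ Q ∈ (Pr d).filter (fun Q => ¬ Q ∣ W),
      {a | a ∈ Bx g N r W A ∧ Q ^ 2 ∣ dis a})).ncard : ℝ) ≤ Cc * Y * (1 / q ^ d) := by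
    intro d hd
    rw [Finset.mem_Ico] at hd
    refine (bU _ _ (fun _ => Cc * Y / q ^ (2 * d)) ?_).trans ?_
    · intro Q hQ
      rw [Finset.mem_filter, hP1] at hQ
      obtain ⟨⟨hQm, hQi, hQd⟩, hQW⟩ := hQ
      have e1 := count_P N r W A h1 h2 hg hk hW hQm hQi hQW (by omega)
      rw [hQd, ← hCc] at e1
      exact e1
    · rw [Finset.sum_const, nsmul_eq_mul]
      have e1 : (((Pr d).filter (fun Q => ¬ Q ∣ W)).card : ℝ) ≤ (Pr d).card := by
        exact_mod_cast Finset.card_filter_le _ _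
      have e2 := hP2 d (by omega)
      have e3 : (1 : ℝ) ≤ d := by exact_mod_cast (show 1 ≤ d by omega)
      have e4 : ((Pr d).card : ℝ) ≤ q ^ d := by
        have : (0 : ℝ) ≤ (Pr d).card := Nat.cast_nonneg _
        nlinarith
      have e5 := e1.trans e4
      refine (mul_le_mul_of_nonneg_right e5 (by positivity)).trans (le_of_eq ?_)
      rw [two_mul, pow_add]
      field_simp
  refine (bU _ _ _ h3).trans ?_
  rw [← Finset.mul_sum]
  have h10 : 0 < q - 1 := by linarith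
  have h4 : ∑ d ∈ Finset.Ico (b + 1) (N + 1), 1 / q ^ d ≤ 1 / (q - 1) / q ^ b := by
    by_cases hbN : b ≤ N
    · have h5 := sum1 q hq5 b (N - b)
      rw [show b + (N - b) = N by omega] at h5
      rw [h5]
      have : 0 ≤ 1 / (q - 1) / q ^ N := by positivity
      linarith
    · rw [Finset.Ico_eq_empty (by omega), Finset.sum_empty]
      positivity
  have h11 : 1 / (q - 1) ≤ 1 / 4 := one_div_le_one_div_of_le (by norm_num) (by linarith)
  calc (Cc : ℝ) * Y * ∑ d ∈ Finset.Ico (b + 1) (N + 1), 1 / q ^ d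
      ≤ Cc * Y * (1 / (q - 1) / q ^ b) := mul_le_mul_of_nonneg_left h4 (by positivity)
    _ = (Cc / q ^ b) * (1 / (q - 1)) * Y := by ring
    _ ≤ 1 * (1 / 4) * Y := by
        have h12 : (Cc : ℝ) / q ^ b ≤ 1 := by
          rw [div_le_one (by positivity)]
          exact hb'
        gcongr
    _ = _ := by ring

end count

theorem exists_sq_prime {k : Type} [Field k] {x : k[X]} (h : ¬ Squarefree x) :
    ∃ P : k[X], P.Monic ∧ Irreducible P ∧ P ^ 2 ∣ x := by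
  unfold Squarefree at h
  push Not at h
  obtain ⟨y, hy, hyu⟩ := h
  by_cases hy0 : y = 0
  · refine ⟨X, monic_X, irreducible_X, ?_⟩
    rw [hy0, zero_mul, zero_dvd_iff] at hy
    rw [hy]
    exact dvd_zero _
  · obtain ⟨p, hp, hpy⟩ := WfDvdMonoid.exists_irreducible_factor hyu hy0
    have hp0 := hp.ne_zero
    refine ⟨p * C (p.leadingCoeff)⁻¹, monic_mul_leadingCoeff_inv hp0,
      irreducible_mul_leadingCoeff_inv.2 hp, ?_⟩
    have hu : IsUnit (C (p.leadingCoeff)⁻¹) :=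
      isUnit_C.2 (isUnit_iff_ne_zero.2 (inv_ne_zero (leadingCoeff_ne_zero.2 hp0)))
    have h1 : p * C (p.leadingCoeff)⁻¹ ∣ y := hu.mul_right_dvd.2 hpy
    rw [pow_two]
    exact (mul_dvd_mul h1 h1).trans hy

theorem sqf_prod {k : Type} [Field k] (V : Finset k[X])
    (hV : ∀ Q ∈ V, Q.Monic ∧ Irreducible Q) : Squarefree (∏ Q ∈ V, Q) := by
  induction V using Finset.induction_on with
  | empty =>
    rw [Finset.prod_empty]
    exact squarefree_one
  | insert Q T hQT ih =>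
    have hT : ∀ R ∈ T, R.Monic ∧ Irreducible R := fun R hR => hV R (Finset.mem_insert_of_mem hR)
    have hQ := hV Q (Finset.mem_insert_self _ _)
    rw [Finset.prod_insert hQT, squarefree_mul_iff]
    refine ⟨IsCoprime.isRelPrime ?_, hQ.2.squarefree, ih hT⟩
    refine IsCoprime.prod_right fun R hR => ?_
    rw [hQ.2.coprime_iff_not_dvd]
    intro hd
    apply hQT
    have h1 : Q = R := eq_of_monic_of_associated hQ.1 (hT R hR).1
      (hQ.2.associated_of_dvd (hT R hR).2 hd)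
    rwa [h1]

theorem exists_A {k : Type} [Field k] [Finite k] (g : ℕ) (V S : Finset k[X])
    (hV : ∀ Q ∈ V, Q.Monic ∧ Irreducible Q) (h : k[X] → k[X][X]) (r : k[X]) :
    ∃ A : Fin (2 * g) → k[X], (∀ Q ∈ V, Q ∈ S → ∀ j, Q ∣ A j - (X * h Q).coeff j) ∧
      ∀ Q ∈ V, Q ∉ S → ∀ j, Q ∣ A j - C (r.coeff j) := by
  have key : ∀ j : Fin (2 * g), ∃ A : k[X], (∀ Q ∈ V, Q ∈ S → Q ∣ A - (X * h Q).coeff j) ∧
      ∀ Q ∈ V, Q ∉ S → Q ∣ A - C (r.coeff j) := by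
    intro j
    obtain ⟨s, hs⟩ : ∃ s : k[X] → k[X], s = fun Q => if Q ∈ S then (X * h Q).coeff j else
      C (r.coeff j) := ⟨_, rfl⟩
    obtain ⟨A, hA⟩ := (exists_a1 V hV s).2
    refine ⟨A, fun Q hQ hQS => ?_, fun Q hQ hQS => ?_⟩
    · have h1 := hA Q hQ
      have h2 : s Q = (X * h Q).coeff j := by rw [hs]; exact if_pos hQS
      rwa [h2] at h1
    · have h1 := hA Q hQ
      have h2 : s Q = C (r.coeff j) := by rw [hs]; exact if_neg hQS
      rwa [h2] at h1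
  choose A hA using key
  exact ⟨A, fun Q hQ hQS j => (hA j).1 Q hQ hQS, fun Q hQ hQS j => (hA j).2 Q hQ hQS⟩

theorem dsc_pol {k : Type} [Field k] {g : ℕ} (a : Fin (2 * g) → k[X]) :
    dsc g (pol a) = dis a := by
  unfold dsc dis
  rfl

theorem Fam_fin (h2 : S_BX) {k : Type} [Field k] [Finite k] (g N : ℕ) (r : k[X])
    (S : Finset k[X]) (h : k[X] → k[X][X]) : {f : k[X][X] | Fam g N r S h f}.Finite := by
  have hW1 : (1 : k[X]) ≠ 0 := one_ne_zero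
  have hF1 := (h2 g k N r 1 (fun _ => 0) hW1 (by simp)).1
  refine (hF1.image pol).subset ?_
  intro f hf
  have ef : f = pol (fun j : Fin (2 * g) => f.coeff j) :=
    eq_pol hf.ht.deg.le (by rw [← hf.ht.deg]; exact hf.ht.mon.coeff_natDegree) hf.ht.tr
  have hm : (fun j : Fin (2 * g) => f.coeff j) ∈ Bx g N r 1 (fun _ => 0) := by
    intro j
    exact ⟨hf.ht.ht j j.2.le, hf.inf j j.2.le, one_dvd _⟩
  exact ⟨_, hm, ef.symm⟩

theorem Fam_mem {k : Type} [Field k] {g N : ℕ} {r W : k[X]} (hr : r.coeff (2 * g) = 0)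
    {A a : Fin (2 * g) → k[X]} {S : Finset k[X]} {h : k[X] → k[X][X]}
    (ha : a ∈ Bx g N r W A) (hsq : Squarefree (dis a)) (hc : ∀ Q ∈ S, Cg Q (pol a) (X * h Q)) :
    Fam g N r S h (pol a) where
  ht :=
    { mon := pol_monic a
      deg := pol_natDegree a
      tr := pol_coeff_tr a
      ht := by
        intro j hj
        rcases Nat.lt_or_ge j (2 * g) with h4 | h4
        · have h5 := (ha ⟨j, h4⟩).1
          rw [← pol_coeff_lt a ⟨j, h4⟩] at h5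
          exact h5
        · rw [show j = 2 * g by omega, pol_coeff_tr]
          simp }
  inf := by
    intro j hj
    rcases Nat.lt_or_ge j (2 * g) with h4 | h4
    · have h5 := (ha ⟨j, h4⟩).2.1
      rw [← pol_coeff_lt a ⟨j, h4⟩] at h5
      exact h5
    · rw [show j = 2 * g by omega, pol_coeff_tr, hr]
      simp
  con := hc
  sq := by
    rw [dsc_pol]
    exact hsq

theorem fam (h1 : S_LD) (h2 : S_BX) (h3 : S_LP) : S_FAM := by
  intro g k _ _ hg hk r hr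
  have h6 := six_ne hg hk
  have h0 := top_ne hk
  have hq5 := five_le h6
  obtain ⟨Pr, hP1, hP2⟩ := exists_Pr h6
  obtain ⟨b, hb⟩ : ∃ b : ℕ, (2 * g + 2 * g * (2 * g - 1) * (2 * g + 1) : ℕ) ≤ Nat.card k ^ b :=
    ⟨_, (Nat.lt_pow_self (by omega)).le⟩
  obtain ⟨Tb, hTb⟩ : ∃ Tb : Finset k[X], Tb = (Finset.Icc 1 b).biUnion Pr := ⟨_, rfl⟩
  have hTb1 : ∀ Q ∈ Tb, Q.Monic ∧ Irreducible Q := by
    intro Q hQ
    rw [hTb, Finset.mem_biUnion] at hQ
    obtain ⟨d, _, hQd⟩ := hQ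
    rw [hP1] at hQd
    exact ⟨hQd.1, hQd.2.1⟩
  obtain ⟨K, hK⟩ : ∃ K : ℕ, K = ∏ Q ∈ Tb, nm Q := ⟨_, rfl⟩
  have hK0 : 0 < K := by
    rw [hK]
    exact Finset.prod_pos fun Q _ => nm_pos Q
  have hK0r : (0 : ℝ) < K := by exact_mod_cast hK0
  refine ⟨1 / (2 * (K : ℝ) ^ (2 * g)), by positivity, fun S h hS => ?_⟩
  -- the modulus
  obtain ⟨V, hV⟩ : ∃ V : Finset k[X], V = Tb ∪ S := ⟨_, rfl⟩
  have hV1 : ∀ Q ∈ V, Q.Monic ∧ Irreducible Q := by
    intro Q hQ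
    rw [hV, Finset.mem_union] at hQ
    rcases hQ with hQ | hQ
    · exact hTb1 Q hQ
    · exact ⟨(hS Q hQ).1, (hS Q hQ).2.1⟩
  obtain ⟨W, hWd⟩ : ∃ W : k[X], W = ∏ Q ∈ V, Q := ⟨_, rfl⟩
  have hWm : W.Monic := by
    rw [hWd]
    exact monic_prod_of_monic V (fun Q => Q) fun Q hQ => (hV1 Q hQ).1
  have hW0 := hWm.ne_zero
  have hdW : ∀ Q ∈ V, Q ∣ W := fun Q hQ => by
    rw [hWd]
    exact Finset.dvd_prod_of_mem (fun x => x) hQ
  have hcopV := (exists_a1 V hV1 fun _ => 0).1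
  have hWV : ∀ Q : k[X], Q.Monic → Irreducible Q → Q ∣ W → Q ∈ V := by
    intro Q hQm hQi hd
    by_contra hQ
    have := hcopV Q hQm hQi hQ
    rw [← hWd] at this
    exact hQi.not_isUnit (this.symm.isUnit_of_dvd' dvd_rfl hd)
  have hWsq : Squarefree W := by
    rw [hWd]
    exact sqf_prod V hV1
  obtain ⟨A, hA1, hA2⟩ := exists_A g V S hV1 h r
  -- the size of `W`
  have hnmW : nm W ≤ K * ∏ Q ∈ S, nm Q := by
    rw [hWd, nm_prod V fun Q hQ => (hV1 Q hQ).1, hV, hK]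
    rw [← Finset.prod_union_inter]
    exact Nat.le_mul_of_pos_right _ (Finset.prod_pos fun Q _ => nm_pos Q)
  obtain ⟨N₁, hN₁⟩ := h3 g k hg hk r W A hWsq (1 / 4) (by norm_num)
  refine ⟨max N₁ W.natDegree, fun N hN => ?_⟩
  have hN1 : N₁ ≤ N := le_trans (le_max_left _ _) hN
  have hN2 : W.natDegree ≤ N := le_trans (le_max_right _ _) hN
  have e1 := mid_part N r W A h1 h2 hg hk hW0 (by omega) Pr hP1 hP2 b hb
  have e2 := hN₁ N hN1
  obtain ⟨hBf, hBc⟩ := h2 g k N r W A hW0 (by omega)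
  -- the good parameters
  obtain ⟨G, hG⟩ : ∃ G : Set (Fin (2 * g) → k[X]), G = {a | a ∈ Bx g N r W A ∧ Squarefree (dis a)} :=
    ⟨_, rfl⟩
  have key : ∀ a ∈ Bx g N r W A, ∀ Q ∈ V, ¬ Q ∣ dis a ∧ (Q ∈ S → Cg Q (pol a) (X * h Q)) := by
    intro a ha Q hQ
    have hQi := (hV1 Q hQ).2
    by_cases hQS : Q ∈ S
    · have hja : ∀ j : Fin (2 * g), Q ∣ a j - (X * h Q).coeff j := by
        intro j
        have h4 := dvd_add ((hdW Q hQ).trans (ha j).2.2) (hA1 Q hQ hQS j)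
        convert h4 using 1
        ring
      obtain ⟨s1, s2, s3, s4, s5, s6⟩ := hS Q hQS
      obtain ⟨t1, t2⟩ := not_dvd_S (h := h Q) (Q := Q) hg h0 hQi s3 s4 s5 s6 a hja
      exact ⟨t2, fun _ => t1⟩
    · have hja : ∀ j : Fin (2 * g), Q ∣ a j - C (r.coeff j) := by
        intro j
        have h4 := dvd_add ((hdW Q hQ).trans (ha j).2.2) (hA2 Q hQ hQS j)
        convert h4 using 1
        ring
      exact ⟨not_dvd_r h0 hr hQi a hja, fun h => absurd h hQS⟩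
  have hcov : Bx g N r W A ⊆ G ∪ ((⋃ d ∈ Finset.Ico (b + 1) (N + 1),
      ⋃ Q ∈ (Pr d).filter (fun Q => ¬ Q ∣ W), {a | a ∈ Bx g N r W A ∧ Q ^ 2 ∣ dis a}) ∪
      {a ∈ Bx g N r W A | ∃ P : k[X], Irreducible P ∧ N < P.natDegree ∧ ¬ P ∣ W ∧
        P ^ 2 ∣ dis a}) := by
    intro a ha
    by_cases hsq : Squarefree (dis a)
    · left
      rw [hG]
      exact ⟨ha, hsq⟩
    right
    obtain ⟨P, hPm, hPi, hPd⟩ := exists_sq_prime hsq
    have hPW : ¬ P ∣ W := by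
      intro hd
      exact (key a ha P (hWV P hPm hPi hd)).1 ((dvd_pow_self P two_ne_zero).trans hPd)
    by_cases hdN : P.natDegree ≤ N
    · left
      simp only [Set.mem_iUnion]
      have hpos : 0 < P.natDegree := hPi.natDegree_pos
      have hbP : b < P.natDegree := by
        by_contra hcon
        apply hPW
        apply hdW
        rw [hV, Finset.mem_union, hTb, Finset.mem_biUnion]
        left
        exact ⟨P.natDegree, Finset.mem_Icc.2 ⟨hpos, by omega⟩, (hP1 _ _).2 ⟨hPm, hPi, rfl⟩⟩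
      exact ⟨P.natDegree, Finset.mem_Ico.2 ⟨by omega, by omega⟩, P,
        Finset.mem_filter.2 ⟨(hP1 _ _).2 ⟨hPm, hPi, rfl⟩, hPW⟩, ha, hPd⟩
    · right
      exact ⟨ha, P, hPi, by omega, hPW, hPd⟩
  have hUf : (G ∪ ((⋃ d ∈ Finset.Ico (b + 1) (N + 1),
      ⋃ Q ∈ (Pr d).filter (fun Q => ¬ Q ∣ W), {a | a ∈ Bx g N r W A ∧ Q ^ 2 ∣ dis a}) ∪
      {a ∈ Bx g N r W A | ∃ P : k[X], Irreducible P ∧ N < P.natDegree ∧ ¬ P ∣ W ∧
        P ^ 2 ∣ dis a})).Finite := by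
    refine hBf.subset (Set.union_subset ?_ (Set.union_subset ?_ ?_))
    · rw [hG]; exact fun a ha => ha.1
    · intro a ha
      simp only [Set.mem_iUnion] at ha
      obtain ⟨d, _, Q, _, h⟩ := ha
      exact h.1
    · exact fun a ha => ha.1
  have hle := Set.ncard_le_ncard hcov hUf
  have hle2 := hle.trans ((Set.ncard_union_le _ _).trans
    (Nat.add_le_add_left (Set.ncard_union_le _ _) _))
  have hle3 : ((Bx g N r W A).ncard : ℝ) ≤ (G.ncard : ℝ) +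
      (((⋃ d ∈ Finset.Ico (b + 1) (N + 1), ⋃ Q ∈ (Pr d).filter (fun Q => ¬ Q ∣ W),
        {a | a ∈ Bx g N r W A ∧ Q ^ 2 ∣ dis a}).ncard : ℝ) +
      (({a ∈ Bx g N r W A | ∃ P : k[X], Irreducible P ∧ N < P.natDegree ∧ ¬ P ∣ W ∧
        P ^ 2 ∣ dis a}).ncard : ℝ)) := by
    exact_mod_cast hle2
  have hGhalf : 1 / 2 * ((Bx g N r W A).ncard : ℝ) ≤ (G.ncard : ℝ) := by linarith
  -- the family
  have hFfin := Fam_fin h2 g N r S h
  have hGF : pol '' G ⊆ {f : k[X][X] | Fam g N r S h f} := by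
    rintro f ⟨a, ha, rfl⟩
    rw [hG] at ha
    exact Fam_mem hr.2.2.2 ha.1 ha.2 fun Q hQ =>
      (key a ha.1 Q (by rw [hV]; exact Finset.mem_union_right _ hQ)).2 hQ
  have hGn : G.ncard ≤ {f : k[X][X] | Fam g N r S h f}.ncard := by
    rw [← Set.ncard_image_of_injective G (fun a b hab => pol_inj hab)]
    exact Set.ncard_le_ncard hGF hFfin
  have hGn' : (G.ncard : ℝ) ≤ ({f : k[X][X] | Fam g N r S h f}.ncard : ℝ) := by exact_mod_cast hGn
  -- the end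
  have hBc' : ((Bx g N r W A).ncard : ℝ) * (nm W : ℝ) ^ (2 * g) =
      (Nat.card k : ℝ) ^ (2 * N * dd g) := by exact_mod_cast hBc
  have hprod : ((∏ Q ∈ S, nm Q ^ (2 * g) : ℕ) : ℝ) = ((∏ Q ∈ S, nm Q : ℕ) : ℝ) ^ (2 * g) := by
    rw [Finset.prod_pow]
    push_cast
    rfl
  rw [hprod, ← hBc']
  have hnmW' : (nm W : ℝ) ≤ K * ((∏ Q ∈ S, nm Q : ℕ) : ℝ) := by exact_mod_cast hnmW
  generalize ((∏ Q ∈ S, nm Q : ℕ) : ℝ) = s at *
  have hnW0 : (0 : ℝ) < nm W := by exact_mod_cast nm_pos W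
  have hs0 : 0 < s := by
    by_contra hcon
    push Not at hcon
    nlinarith
  have h7 : (nm W : ℝ) ^ (2 * g) ≤ (K * s) ^ (2 * g) := pow_le_pow_left₀ hnW0.le hnmW' _
  have hB0 : (0 : ℝ) ≤ ((Bx g N r W A).ncard : ℝ) := Nat.cast_nonneg _
  calc 1 / (2 * (K : ℝ) ^ (2 * g)) * (((Bx g N r W A).ncard : ℝ) * (nm W : ℝ) ^ (2 * g))
      ≤ 1 / (2 * (K : ℝ) ^ (2 * g)) * (((Bx g N r W A).ncard : ℝ) * (K * s) ^ (2 * g)) := by
        gcongr
    _ = s ^ (2 * g) * (1 / 2 * ((Bx g N r W A).ncard : ℝ)) := by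
        rw [mul_pow]
        field_simp
    _ ≤ s ^ (2 * g) * ({f : k[X][X] | Fam g N r S h f}.ncard : ℝ) :=
        mul_le_mul_of_nonneg_left (hGhalf.trans hGn') (by positivity)

end Pool.Agent.N34.PJ
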